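import Pool.Agent.MWH.StmtsB

/-!
# Row BJ4: the bit `J 3` in h4
-/

namespace Pool.Agent.MWH.H51

open Pool.Agent.Helper14_MV Pool.Agent.Helper2_MV Pool.Agent.MVO Pool.Agent.MWL Pool.Agent.MWS
open Pool.Agent.MWH

/-- **BJ4** -/
theorem bj4 : Bj4Stmt := by
  intro β hβ
  refine ⟨hβ.toS8, ?_⟩
  have h1 : RR β [0, 2, 0, 3, 0] [0, 2, 0, 3, 0, 0] := hβ.j3
  have h2 : RR β ([0, 2, 0, 3, 0] ++ [0]) ([0, 2, 0, 3, 0, 0] ++ [0]) := h1.append (RR.refl [0])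
  have h3 : RR β [0, 2, 0, 3, 0] [0, 2, 0, 3, 0, 0, 0] := β.trans h1 h2
  exact h3

end Pool.Agent.MWH.H51
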